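import Mathlib
import Pool.Agent.helper68.SF.SpecE

/-! Module se:EA: bounds of the wave for all times. -/

set_option autoImplicit false

namespace SF

open MeasureTheory
open scoped ContDiff

theorem EA_refl (f : ℝ → ℝ → ℝ → ℝ) (hf : EW f) (s y : ℝ) (hy : 0 < y) :
    dX f s 0 (1 / y) = -y ^ 2 * dX f s 0 y := by
  have hy' : 0 < 1 / y := by positivity
  set F : ℝ × ℝ × ℝ → ℝ := fun p => f p.1 p.2.1 p.2.2 with hF
  have hopen : IsOpen {p : ℝ × ℝ × ℝ | 0 < p.2.2} :=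
    isOpen_lt continuous_const (continuous_snd.comp continuous_snd)
  have hd : DifferentiableAt ℝ F (s, 0, 1 / y) :=
    (hf.sm.contDiffAt (hopen.mem_nhds hy')).differentiableAt (by simp)
  set L := fderiv ℝ F (s, 0, 1 / y) with hL
  have hL' : HasFDerivAt F L (s, 0, 1 / y) := hd.hasFDerivAt
  -- the line
  have h1 : HasDerivAt (fun t : ℝ => ((s, t, 1 / y) : ℝ × ℝ × ℝ)) (0, 1, 0) 0 :=
    (hasDerivAt_const 0 s).prodMk ((hasDerivAt_id 0).prodMk (hasDerivAt_const 0 (1 / y)))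
  have h2 : HasDerivAt (fun t : ℝ => f s t (1 / y)) (L (0, 1, 0)) 0 := by
    have h3 := HasFDerivAt.comp_hasDerivAt (f := fun t : ℝ => ((s, t, 1 / y) : ℝ × ℝ × ℝ))
      (x := (0 : ℝ)) (l := F) (l' := L) hL' h1
    exact h3
  have h4 : dX f s 0 (1 / y) = L (0, 1, 0) := h2.deriv
  -- the curve
  have hden : HasDerivAt (fun t : ℝ => t ^ 2 + y ^ 2) 0 0 := by
    have h5 := ((hasDerivAt_id (0 : ℝ)).pow 2).add_const (y ^ 2)
    simpa using h5
  have hy2 : (0 : ℝ) ^ 2 + y ^ 2 ≠ 0 := by positivity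
  have h6 : HasDerivAt (fun t : ℝ => t / (t ^ 2 + y ^ 2)) (1 / y ^ 2) 0 := by
    have h7 := (hasDerivAt_id (0 : ℝ)).div hden hy2
    refine h7.congr_deriv ?_
    simp
    field_simp
  have h8 : HasDerivAt (fun t : ℝ => y / (t ^ 2 + y ^ 2)) 0 0 := by
    have h7 := (hasDerivAt_const (0 : ℝ) y).div hden hy2
    refine h7.congr_deriv ?_
    simp
  have h9 : HasDerivAt (fun t : ℝ => ((s, t / (t ^ 2 + y ^ 2), y / (t ^ 2 + y ^ 2)) : ℝ × ℝ × ℝ))
      (0, 1 / y ^ 2, 0) 0 := (hasDerivAt_const 0 s).prodMk (h6.prodMk h8)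
  have h10 : ((s, (0 : ℝ) / (0 ^ 2 + y ^ 2), y / (0 ^ 2 + y ^ 2)) : ℝ × ℝ × ℝ) = (s, 0, 1 / y) := by
    have : y / (0 ^ 2 + y ^ 2) = 1 / y := by
      field_simp
      ring
    rw [this]
    simp
  have h11 : HasDerivAt (fun t : ℝ => F (s, t / (t ^ 2 + y ^ 2), y / (t ^ 2 + y ^ 2)))
      (L (0, 1 / y ^ 2, 0)) 0 := by
    have h3 := HasFDerivAt.comp_hasDerivAt
      (f := fun t : ℝ => ((s, t / (t ^ 2 + y ^ 2), y / (t ^ 2 + y ^ 2)) : ℝ × ℝ × ℝ))
      (x := (0 : ℝ)) (l := F) (l' := L) (by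
        show HasFDerivAt F L (s, (0 : ℝ) / (0 ^ 2 + y ^ 2), y / (0 ^ 2 + y ^ 2))
        rw [h10]
        exact hL') h9
    exact h3
  have h12 : (fun t : ℝ => F (s, t / (t ^ 2 + y ^ 2), y / (t ^ 2 + y ^ 2))) =
      fun t => -f s t y := by
    funext t
    have hp : 0 < t ^ 2 + y ^ 2 := by positivity
    have h13 := hf.inv s t y hy
    have h14 := hf.odd s (t / (t ^ 2 + y ^ 2)) (y / (t ^ 2 + y ^ 2)) (div_pos hy hp)
    show f s (t / (t ^ 2 + y ^ 2)) (y / (t ^ 2 + y ^ 2)) = -f s t y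
    rw [h14] at h13
    linarith
  rw [h12] at h11
  have h15 : dX f s 0 y = -L (0, 1 / y ^ 2, 0) := by
    have h16 := h11.neg
    have h17 : HasDerivAt (fun t : ℝ => f s t y) (-L (0, 1 / y ^ 2, 0)) 0 := by
      refine h16.congr_of_eventuallyEq (Filter.Eventually.of_forall fun t => ?_)
      simp
    exact h17.deriv
  have h18 : ((0, 1 / y ^ 2, 0) : ℝ × ℝ × ℝ) = (1 / y ^ 2) • (0, 1, 0) := by
    simp
  rw [h18, map_smul, smul_eq_mul] at h15
  rw [h4, h15]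
  field_simp

theorem EA_prof (hPD : PD_stmt) (g : ℝ → ℝ) (B : ℝ) (hg : Prof g) (hB : Bd 12 B g) :
    ∀ j ≤ 12, Prof (DD^[j] g) ∧ Bd (12 - j) (28 ^ j * B) (DD^[j] g) := by
  have hB0 : 0 ≤ B := le_trans (abs_nonneg _) (hB 0 (by norm_num) 0)
  intro j
  induction j with
  | zero =>
    intro _
    refine ⟨hg, ?_⟩
    simpa using hB
  | succ j ih =>
    intro hj
    obtain ⟨h1, h2⟩ := ih (by omega)
    rw [Function.iterate_succ_apply']
    refine ⟨(hPD _ h1).1, ?_⟩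
    have h3 : 12 - j = (12 - (j + 1)) + 1 := by omega
    rw [h3] at h2
    have h4 := (hPD _ h1).2 _ _ h2
    intro i hi a
    refine (h4 i hi a).trans ?_
    have h5 : ((12 - (j + 1) : ℕ) : ℝ) ≤ 11 := by
      have : 12 - (j + 1) ≤ 11 := by omega
      exact_mod_cast this
    have h6 : 0 ≤ (28 : ℝ) ^ j * B := by positivity
    calc (6 + 2 * ((12 - (j + 1) : ℕ) : ℝ)) * (28 ^ j * B) ≤ 28 * (28 ^ j * B) := by
          apply mul_le_mul_of_nonneg_right _ h6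
          linarith
      _ = 28 ^ (j + 1) * B := by ring

theorem EA_En (hDI : DI_stmt) (f : ℝ → ℝ → ℝ → ℝ) (s A : ℝ) (hA : 0 ≤ A)
    (h0 : ∀ x y : ℝ, 0 < y → |x| ≤ 1 / 2 → 1 ≤ x ^ 2 + y ^ 2 → |dS f s x y| ≤ A / y)
    (h1 : ∀ x y : ℝ, 0 < y → |x| ≤ 1 / 2 → 1 ≤ x ^ 2 + y ^ 2 → |dX f s x y| ≤ A / y ^ 2)
    (h2 : ∀ x y : ℝ, 0 < y → |x| ≤ 1 / 2 → 1 ≤ x ^ 2 + y ^ 2 → |dY f s x y| ≤ A / y ^ 2) :
    En f s ≤ 4 * A ^ 2 * ∫ p in Dm, 1 / p.2 ^ 2 := by
  have hint : IntegrableOn (fun p : ℝ × ℝ => 1 / p.2 ^ 2) Dm := by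
    refine hDI _ 1 ?_ ?_
    · refine ContinuousOn.div continuousOn_const (by fun_prop) ?_
      intro p hp
      have : (0 : ℝ) < p.2 := hp
      positivity
    · intro p _ hp
      have : 0 < p.2 := by linarith
      rw [abs_of_nonneg (by positivity)]
  have hmeas : MeasurableSet Dm := by
    have h3 : Dm = {p : ℝ × ℝ | 0 < p.1} ∩ ({p | p.1 < 1 / 2} ∩ ({p | 0 < p.2} ∩
        {p | 1 < p.1 ^ 2 + p.2 ^ 2})) := by
      ext p
      simp [Dm]
    rw [h3]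
    refine (measurableSet_lt measurable_const measurable_fst).inter
      ((measurableSet_lt measurable_fst measurable_const).inter
      ((measurableSet_lt measurable_const measurable_snd).inter
      (measurableSet_lt measurable_const (by fun_prop))))
  have hint2 : IntegrableOn (fun p : ℝ × ℝ => 4 * A ^ 2 * (1 / p.2 ^ 2)) Dm := hint.const_mul _
  have hle : ∀ p ∈ Dm, (dS f s p.1 p.2) ^ 2 / (4 * p.2 ^ 2) + (dX f s p.1 p.2) ^ 2 +
      (dY f s p.1 p.2) ^ 2 - (f s p.1 p.2) ^ 2 / (4 * p.2 ^ 2) ≤ 4 * A ^ 2 * (1 / p.2 ^ 2) := by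
    rintro ⟨x, y⟩ ⟨hx0, hx1, hy, hxy⟩
    simp only at hx0 hx1 hy hxy ⊢
    have hx : |x| ≤ 1 / 2 := by
      rw [abs_of_pos hx0]
      exact hx1.le
    have hy2 : 3 / 4 < y ^ 2 := by nlinarith
    have e0 := h0 x y hy hx hxy.le
    have e1 := h1 x y hy hx hxy.le
    have e2 := h2 x y hy hx hxy.le
    have hAy : 0 ≤ A / y := by positivity
    have hAy2 : 0 ≤ A / y ^ 2 := by positivity
    have q0 : (dS f s x y) ^ 2 ≤ (A / y) ^ 2 := sq_le_sq' (by linarith [abs_le.1 e0]) (abs_le.1 e0).2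
    have q1 : (dX f s x y) ^ 2 ≤ (A / y ^ 2) ^ 2 :=
      sq_le_sq' (by linarith [abs_le.1 e1]) (abs_le.1 e1).2
    have q2 : (dY f s x y) ^ 2 ≤ (A / y ^ 2) ^ 2 :=
      sq_le_sq' (by linarith [abs_le.1 e2]) (abs_le.1 e2).2
    have q3 : 0 ≤ (f s x y) ^ 2 / (4 * y ^ 2) := by positivity
    have q4 : (dS f s x y) ^ 2 / (4 * y ^ 2) ≤ (A / y) ^ 2 / (4 * y ^ 2) :=
      div_le_div_of_nonneg_right q0 (by positivity)
    have hinv : 1 / y ^ 2 ≤ 4 / 3 := by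
      rw [div_le_div_iff₀ (by positivity) (by norm_num)]
      linarith
    have q5 : (A / y) ^ 2 / (4 * y ^ 2) = A ^ 2 * (1 / y ^ 2) * ((1 / 4) * (1 / y ^ 2)) := by
      field_simp
    have q6 : (A / y ^ 2) ^ 2 = A ^ 2 * (1 / y ^ 2) * (1 / y ^ 2) := by
      field_simp
    have q7 : 0 ≤ A ^ 2 * (1 / y ^ 2) := by positivity
    nlinarith
  have hnn : 0 ≤ ∫ p in Dm, 4 * A ^ 2 * (1 / (p : ℝ × ℝ).2 ^ 2) :=
    setIntegral_nonneg hmeas fun p _ => by positivity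
  rw [En, ← integral_const_mul]
  by_cases hi : IntegrableOn (fun p : ℝ × ℝ => (dS f s p.1 p.2) ^ 2 / (4 * p.2 ^ 2) +
      (dX f s p.1 p.2) ^ 2 + (dY f s p.1 p.2) ^ 2 - (f s p.1 p.2) ^ 2 / (4 * p.2 ^ 2)) Dm
  · exact setIntegral_mono_on hi hint2 hmeas hle
  · rw [integral_undef hi]
    exact hnn

theorem EA_main (hW7 : W7_stmt) (hEB : EB_stmt) (hWE : WE_stmt) (hPD : PD_stmt) (hDI : DI_stmt) :
    ∃ C : ℝ, 0 < C ∧ ∀ (g : ℝ → ℝ) (B : ℝ), Prof g → 0 ≤ B →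
      (∀ j ≤ 7, Prof (DD^[j] g) ∧ Bd 4 B (DD^[j] g)) →
      ∀ s y : ℝ, 0 < y → |dX (ww g) s 0 y| ≤ C * B / y := by
  obtain ⟨C7, hC7, h7⟩ := hW7
  obtain ⟨CE, hCE, hE⟩ := hEB
  set I : ℝ := ∫ p in Dm, 1 / (p : ℝ × ℝ).2 ^ 2 with hI
  have hI0 : 0 ≤ I := by
    rw [hI]
    exact integral_nonneg fun p => by positivity
  refine ⟨√(CE * (6 * (4 * C7 ^ 2 * I))) + 1, by positivity, ?_⟩
  intro g B hg hB0 hgB
  have hf : EW (ww g) := (hWE g hg).1
  have hit : ∀ (j : ℕ) (s x y : ℝ), 0 < y → (dS^[j] (ww g)) s x y = ww (DD^[j] g) s x y :=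
    (hWE g hg).2
  have hEn : ∀ j < 6, En (dS^[j] (ww g)) (5 / 2) ≤ 4 * (C7 * B) ^ 2 * I := by
    intro j hj
    refine EA_En hDI _ _ _ (by positivity) ?_ ?_ ?_
    · intro x y hy hx hxy
      have h1 : dS (dS^[j] (ww g)) = dS^[j + 1] (ww g) := (Function.iterate_succ_apply' _ _ _).symm
      rw [h1, hit _ _ _ _ hy]
      exact (h7 _ B (hgB (j + 1) (by omega)).1 (hgB (j + 1) (by omega)).2 x y hy hx hxy).1
    · intro x y hy hx hxy
      have h1 : dX (dS^[j] (ww g)) (5 / 2) x y = dX (ww (DD^[j] g)) (5 / 2) x y := by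
        unfold dX
        congr 1
        funext t
        exact hit _ _ _ _ hy
      rw [h1]
      exact (h7 _ B (hgB j (by omega)).1 (hgB j (by omega)).2 x y hy hx hxy).2.1
    · intro x y hy hx hxy
      have h1 : dY (dS^[j] (ww g)) (5 / 2) x y = dY (ww (DD^[j] g)) (5 / 2) x y := by
        unfold dY
        apply Filter.EventuallyEq.deriv_eq
        filter_upwards [lt_mem_nhds hy] with t ht
        exact hit _ _ _ _ ht
      rw [h1]
      exact (h7 _ B (hgB j (by omega)).1 (hgB j (by omega)).2 x y hy hx hxy).2.2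
  have hbig : ∀ s y : ℝ, 1 ≤ y →
      |dX (ww g) s 0 y| ≤ (√(CE * (6 * (4 * C7 ^ 2 * I))) + 1) * B / y := by
    intro s y hy
    have hy0 : 0 < y := by linarith
    have h1 := hE (ww g) hf s (5 / 2) y hy
    have h2 : ∑ j ∈ Finset.range 6, En (dS^[j] (ww g)) (5 / 2) ≤ 6 * (4 * (C7 * B) ^ 2 * I) := by
      have h3 := Finset.sum_le_card_nsmul (Finset.range 6)
        (fun j => En (dS^[j] (ww g)) (5 / 2)) (4 * (C7 * B) ^ 2 * I)
        (fun j hj => hEn j (Finset.mem_range.1 hj))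
      simpa using h3
    have h4 : (|dX (ww g) s 0 y| * y) ^ 2 ≤ (√(CE * (6 * (4 * C7 ^ 2 * I))) * B) ^ 2 := by
      rw [mul_pow, sq_abs, mul_pow, Real.sq_sqrt (by positivity)]
      calc _ ≤ _ := h1
        _ ≤ CE * (6 * (4 * (C7 * B) ^ 2 * I)) := mul_le_mul_of_nonneg_left h2 hCE.le
        _ = _ := by ring
    have h5 : |dX (ww g) s 0 y| * y ≤ √(CE * (6 * (4 * C7 ^ 2 * I))) * B :=
      le_of_sq_le_sq h4 (by positivity) |> fun h => h
    rw [le_div_iff₀ hy0]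
    nlinarith
  intro s y hy
  rcases le_or_gt 1 y with h | h
  · exact hbig s y h
  · have h1 : 1 ≤ 1 / y := by
      rw [le_div_iff₀ hy]
      linarith
    have h2 := hbig s (1 / y) h1
    rw [EA_refl _ hf s y hy, abs_mul, abs_neg, abs_of_nonneg (by positivity : (0 : ℝ) ≤ y ^ 2)] at h2
    rw [le_div_iff₀ hy]
    rw [div_div_eq_mul_div, div_one] at h2
    have h3 : y ^ 2 * |dX (ww g) s 0 y| = y * (|dX (ww g) s 0 y| * y) := by ring
    rw [h3, mul_comm y] at h2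
    exact le_of_mul_le_mul_right h2 hy

theorem EA (hW7 : W7_stmt) (hEB : EB_stmt) (hWE : WE_stmt) (hPD : PD_stmt) (hDI : DI_stmt) :
    EA_stmt := by
  obtain ⟨C, hC, hmain⟩ := EA_main hW7 hEB hWE hPD hDI
  refine ⟨C * 28 ^ 8, by positivity, ?_⟩
  intro g B hg hB
  have hB0 : 0 ≤ B := le_trans (abs_nonneg _) (hB 0 (by norm_num) 0)
  have hp := EA_prof hPD g B hg hB
  have hall : ∀ j ≤ 8, Prof (DD^[j] g) ∧ Bd 4 (28 ^ 8 * B) (DD^[j] g) := by
    intro j hj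
    obtain ⟨h1, h2⟩ := hp j (by omega)
    refine ⟨h1, fun i hi a => (h2 i (by omega) a).trans ?_⟩
    exact mul_le_mul_of_nonneg_right (pow_le_pow_right₀ (by norm_num) hj) hB0
  intro s y hy
  refine ⟨?_, ?_, EA_refl _ (hWE g hg).1 s y hy⟩
  · have h1 := hmain g (28 ^ 8 * B) hg (by positivity) (fun j hj => hall j (by omega)) s y hy
    rw [mul_assoc C]
    exact h1
  · have h1 := hmain (DD g) (28 ^ 8 * B) (hall 1 (by norm_num)).1 (by positivity)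
      (fun j hj => by
        have h2 := hall (j + 1) (by omega)
        rwa [Function.iterate_succ_apply] at h2) s y hy
    rw [mul_assoc C]
    exact h1

end SF
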