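import Mathlib
import Pool.Agent.helper68.SF.SpecS

/-! Module ss:NZ: a profile with nonzero second moment. -/

set_option autoImplicit false

namespace SF

open MeasureTheory Set
open scoped ContDiff

theorem NZ_prof : ∃ g : ℝ → ℝ, Prof g ∧ (∀ a, 0 ≤ g a) ∧ g 2 = 1 := by
  let f : ContDiffBump (2 : ℝ) := ⟨1 / 2, 1, by norm_num, by norm_num⟩
  refine ⟨f, ⟨f.contDiff, ?_, ?_⟩, fun a => f.nonneg, ?_⟩
  · intro a ha
    refine f.zero_of_le_dist ?_
    show (1 : ℝ) ≤ dist a 2
    rw [Real.dist_eq, abs_of_nonpos (by linarith)]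
    linarith
  · intro a ha
    refine f.zero_of_le_dist ?_
    show (1 : ℝ) ≤ dist a 2
    rw [Real.dist_eq, abs_of_nonneg (by linarith)]
    linarith
  · refine f.one_of_mem_closedBall ?_
    simp only [Metric.mem_closedBall, dist_self]
    show (0 : ℝ) ≤ 1 / 2
    norm_num

theorem NZ_moment (hPHI : PHI_stmt) (g : ℝ → ℝ) (hg : Prof g) :
    ∫ ρ in (0 : ℝ)..1, ρ ^ 2 * deriv (Ph g) ρ = Real.pi * ∫ r in (0 : ℝ)..1, r * GG g r := by
  obtain ⟨hG, hP, hG0, hP1, -, -⟩ := hPHI g hg
  set G := GG g with hGdef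
  set D := deriv G with hD
  have hDc : Continuous D := hG.continuous_deriv (by simp)
  have hD0 : ∀ r : ℝ, |r| < 1 / 2 → D r = 0 := by
    intro r hr
    have h1 : G =ᶠ[nhds r] fun _ => 0 := by
      have h2 : {x : ℝ | |x| < 1 / 2} ∈ nhds r :=
        (isOpen_lt continuous_abs continuous_const).mem_nhds hr
      filter_upwards [h2] with x hx
      exact hG0 x (Or.inl (le_of_lt hx))
    rw [hD, h1.deriv_eq]
    simp
  have hD1 : ∀ r : ℝ, 1 < |r| → D r = 0 := by
    intro r hr
    have h1 : G =ᶠ[nhds r] fun _ => 0 := by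
      have h2 : {x : ℝ | 1 < |x|} ∈ nhds r :=
        (isOpen_lt continuous_const continuous_abs).mem_nhds hr
      filter_upwards [h2] with x hx
      exact hG0 x (Or.inr (le_of_lt hx))
    rw [hD, h1.deriv_eq]
    simp
  -- the function of `r²`
  set Q : ℝ → ℝ := fun u => D (√u) / √u with hQ
  have hQ0 : ∀ u : ℝ, u < 1 / 4 → Q u = 0 := by
    intro u hu
    have h1 : √u < 1 / 2 := by
      rw [Real.sqrt_lt' (by norm_num)]
      linarith
    rw [hQ]
    simp only
    rw [hD0 (√u) (by rw [abs_of_nonneg (Real.sqrt_nonneg _)]; exact h1), zero_div]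
  have hQ1 : ∀ u : ℝ, 1 < u → Q u = 0 := by
    intro u hu
    have h1 : 1 < √u := by
      rw [Real.lt_sqrt (by norm_num)]
      linarith
    rw [hQ]
    simp only
    rw [hD1 (√u) (by rw [abs_of_nonneg (Real.sqrt_nonneg _)]; exact h1), zero_div]
  have hQc : Continuous Q := by
    rw [continuous_iff_continuousAt]
    intro u
    rcases lt_or_ge u (1 / 4) with h | h
    · have h1 : Q =ᶠ[nhds u] fun _ => 0 := by
        filter_upwards [gt_mem_nhds h] with x hx
        exact hQ0 x hx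
      exact (continuousAt_const.congr h1.symm)
    · have h1 : √u ≠ 0 := (Real.sqrt_pos.2 (by linarith)).ne'
      exact ((hDc.comp Real.continuous_sqrt).continuousAt).div Real.continuous_sqrt.continuousAt h1
  set K : ℝ × ℝ → ℝ := fun p => p.1 ^ 2 * Q (p.1 ^ 2 + p.2 ^ 2) with hK
  have hKc : Continuous K := by
    rw [hK]
    fun_prop
  have hKs : HasCompactSupport K := by
    refine HasCompactSupport.intro (K := Icc (-1 : ℝ) 1 ×ˢ Icc (-1 : ℝ) 1)
      (isCompact_Icc.prod isCompact_Icc) ?_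
    intro p hp
    have h1 : 1 < p.1 ^ 2 + p.2 ^ 2 := by
      by_contra h
      push Not at h
      apply hp
      have h2 : p.1 ^ 2 ≤ 1 := by nlinarith [sq_nonneg p.2]
      have h3 : p.2 ^ 2 ≤ 1 := by nlinarith [sq_nonneg p.1]
      exact ⟨⟨by nlinarith, by nlinarith⟩, ⟨by nlinarith, by nlinarith⟩⟩
    rw [hK]
    simp only
    rw [hQ1 _ h1, mul_zero]
  have hKi : Integrable K := hKc.integrable_of_hasCompactSupport hKs
  -- by Fubini
  have hinner : ∀ x : ℝ, ∫ y : ℝ, K (x, y) =
      (fun u : ℝ => 2 * (u ^ 2 * ∫ t in Ioi (0 : ℝ), Q (u ^ 2 + t ^ 2))) |x| := by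
    intro x
    have h1 := integral_comp_abs (f := fun t : ℝ => Q (x ^ 2 + t ^ 2))
    simp only [sq_abs] at h1
    simp only [hK, sq_abs]
    rw [integral_const_mul, h1]
    ring
  have hPh : ∀ u : ℝ, u * Ph g u = u ^ 2 * ∫ t in Ioi (0 : ℝ), Q (u ^ 2 + t ^ 2) := by
    intro u
    rw [Ph]
    simp only [hQ, hD, hGdef]
    ring
  have hF : ∫ p, K p = 4 * ∫ ρ in (0 : ℝ)..1, ρ * Ph g ρ := by
    rw [Measure.volume_eq_prod, integral_prod K (by rwa [← Measure.volume_eq_prod])]
    simp only [hinner]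
    rw [integral_comp_abs (f := fun u : ℝ => 2 * (u ^ 2 * ∫ t in Ioi (0 : ℝ), Q (u ^ 2 + t ^ 2))),
      integral_const_mul]
    simp only [← hPh]
    have h1 : ∫ u in Ioi (0 : ℝ), u * Ph g u = ∫ u in Ioc (0 : ℝ) 1, u * Ph g u := by
      refine setIntegral_eq_of_subset_of_forall_sdiff_eq_zero measurableSet_Ioi
        (fun x hx => hx.1) ?_
      intro x hx
      have h2 : 1 ≤ x := by
        by_contra h
        push Not at h
        exact hx.2 ⟨hx.1, h.le⟩
      rw [hP1 x h2, mul_zero]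
    rw [h1, intervalIntegral.integral_of_le zero_le_one]
    ring
  -- in polar coordinates
  have hcos : ∫ θ in Ioo (-Real.pi) Real.pi, Real.cos θ ^ 2 = Real.pi := by
    rw [← integral_Ioc_eq_integral_Ioo, ← intervalIntegral.integral_of_le (by
      linarith [Real.pi_pos]), integral_cos_sq]
    simp
  have hrad : ∫ r in Ioi (0 : ℝ), r ^ 3 * Q (r ^ 2) = -2 * ∫ r in (0 : ℝ)..1, r * G r := by
    have h1 : ∫ r in Ioi (0 : ℝ), r ^ 3 * Q (r ^ 2) = ∫ r in Ioc (0 : ℝ) 1, r ^ 2 * D r := by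
      have h2 : ∫ r in Ioi (0 : ℝ), r ^ 3 * Q (r ^ 2) = ∫ r in Ioi (0 : ℝ), r ^ 2 * D r := by
        refine setIntegral_congr_fun measurableSet_Ioi fun r hr => ?_
        have hr0 : (0 : ℝ) < r := hr
        simp only [hQ]
        rw [Real.sqrt_sq hr0.le]
        field_simp
      rw [h2]
      refine setIntegral_eq_of_subset_of_forall_sdiff_eq_zero measurableSet_Ioi
        (fun x hx => hx.1) ?_
      intro x hx
      have h3 : 1 < x := by
        by_contra h
        push Not at h
        exact hx.2 ⟨hx.1, h⟩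
      rw [hD1 x (lt_of_lt_of_le h3 (le_abs_self _)), mul_zero]
    rw [h1, ← intervalIntegral.integral_of_le zero_le_one]
    have h4 := intervalIntegral.integral_mul_deriv_eq_deriv_mul (a := 0) (b := 1)
      (u := fun r : ℝ => r ^ 2) (v := G) (u' := fun r : ℝ => 2 * r) (v' := D)
      (fun x _ => by simpa using hasDerivAt_pow 2 x)
      (fun x _ => (hG.differentiable (by simp) x).hasDerivAt)
      ((by fun_prop : Continuous fun r : ℝ => 2 * r).intervalIntegrable _ _)
      (hDc.intervalIntegrable _ _)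
    rw [h4, hG0 1 (Or.inr (by simp))]
    simp only [mul_assoc]
    rw [intervalIntegral.integral_const_mul]
    ring
  have hpol : ∫ p, K p = Real.pi * (-2 * ∫ r in (0 : ℝ)..1, r * G r) := by
    rw [← integral_comp_polarCoord_symm K]
    have h1 : ∀ p ∈ polarCoord.target, p.1 • K (polarCoord.symm p) =
        (p.1 ^ 3 * Q (p.1 ^ 2)) * Real.cos p.2 ^ 2 := by
      intro p _
      simp only [polarCoord_symm_apply, hK, smul_eq_mul]
      have h2 : (p.1 * Real.cos p.2) ^ 2 + (p.1 * Real.sin p.2) ^ 2 = p.1 ^ 2 := by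
        have := Real.sin_sq_add_cos_sq p.2
        calc _ = p.1 ^ 2 * (Real.sin p.2 ^ 2 + Real.cos p.2 ^ 2) := by ring
          _ = p.1 ^ 2 := by rw [this, mul_one]
      rw [h2]
      ring
    rw [setIntegral_congr_fun (by
      rw [polarCoord_target]
      exact measurableSet_Ioi.prod measurableSet_Ioo) h1, polarCoord_target,
      Measure.volume_eq_prod,
      setIntegral_prod_mul (fun r : ℝ => r ^ 3 * Q (r ^ 2)) (fun θ : ℝ => Real.cos θ ^ 2),
      hcos, hrad]
    ring
  -- the first integration by parts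
  have hPc : Continuous (deriv (Ph g)) := hP.continuous_deriv (by simp)
  have h5 := intervalIntegral.integral_mul_deriv_eq_deriv_mul (a := 0) (b := 1)
    (u := fun r : ℝ => r ^ 2) (v := Ph g) (u' := fun r : ℝ => 2 * r) (v' := deriv (Ph g))
    (fun x _ => by simpa using hasDerivAt_pow 2 x)
    (fun x _ => (hP.differentiable (by simp) x).hasDerivAt)
    ((by fun_prop : Continuous fun r : ℝ => 2 * r).intervalIntegrable _ _)
    (hPc.intervalIntegrable _ _)
  rw [h5, hP1 1 le_rfl]
  simp only [mul_assoc]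
  rw [intervalIntegral.integral_const_mul]
  have h6 : 4 * ∫ ρ in (0 : ℝ)..1, ρ * Ph g ρ = Real.pi * (-2 * ∫ r in (0 : ℝ)..1, r * G r) := by
    rw [← hF, hpol]
  linear_combination -(1 / 2) * h6

theorem NZ (hPHI : PHI_stmt) : NZ_stmt := by
  obtain ⟨g, hg, hg0, hg2⟩ := NZ_prof
  refine ⟨g, hg, ?_⟩
  rw [NZ_moment hPHI g hg]
  have hG := (hPHI g hg).1
  have h1 : ∀ r : ℝ, 0 < r → r * GG g r = g (1 / r ^ 2) := by
    intro r hr
    rw [GG]
    field_simp
  have h2 : 0 < ∫ r in (0 : ℝ)..1, r * GG g r := by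
    refine intervalIntegral.integral_pos zero_lt_one ?_ ?_ ?_
    · exact (continuous_id.mul hG.continuous).continuousOn
    · intro r hr
      rw [h1 r hr.1]
      exact hg0 _
    · have h3 : (0 : ℝ) < √2 / 2 := by positivity
      have h4 : √(2 : ℝ) ≤ 2 := by
        rw [Real.sqrt_le_left (by norm_num)]
        norm_num
      refine ⟨√2 / 2, ⟨h3.le, by linarith⟩, ?_⟩
      rw [h1 _ h3]
      have h5 : 1 / (√2 / 2 : ℝ) ^ 2 = 2 := by
        rw [div_pow, Real.sq_sqrt (by norm_num)]
        norm_num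
      rw [h5, hg2]
      exact one_pos
  exact (mul_pos Real.pi_pos h2).ne'

end SF
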