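import Mathlib
import Pool.Agent.helper68.SF.SpecS

/-! Module ss:SUM: summability over the tree. -/

set_option autoImplicit false

namespace SF

open Pool.Agent.helper72.Sq MeasureTheory Set

theorem SUM_gen {ι : Type} (F : ι → ℝ) (C : ℝ) (hC : 0 < C) (h0 : ∀ w, 0 ≤ F w)
    (hF : ∀ T : ℝ, 0 ≤ T → {w | F w ≤ T}.Finite ∧ ({w | F w ≤ T}.ncard : ℝ) ≤ C * (1 + T) ^ 2) :
    Summable (fun w => Real.exp (-F w / 2)) := by
  classical
  have hs : Summable (fun n : ℕ => C * (2 + (n : ℝ)) ^ 2 * Real.exp (-(n : ℝ) / 2)) := by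
    have h2 := (Real.summable_pow_mul_exp_neg_nat_mul 2 (show (0 : ℝ) < 1 / 2 by norm_num)).mul_left C
    have h1 := (Real.summable_pow_mul_exp_neg_nat_mul 1
      (show (0 : ℝ) < 1 / 2 by norm_num)).mul_left (4 * C)
    have h3 := (Real.summable_pow_mul_exp_neg_nat_mul 0
      (show (0 : ℝ) < 1 / 2 by norm_num)).mul_left (4 * C)
    refine ((h2.add h1).add h3).congr fun n => ?_
    have h4 : -(1 / 2 : ℝ) * (n : ℝ) = -(n : ℝ) / 2 := by ring
    simp only [h4]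
    ring
  refine summable_of_sum_le (c := ∑' n : ℕ, C * (2 + (n : ℝ)) ^ 2 * Real.exp (-(n : ℝ) / 2))
    (fun w => (Real.exp_pos _).le) ?_
  intro u
  have h1 : ∑ w ∈ u, Real.exp (-F w / 2) ≤
      ∑ w ∈ u, (fun n : ℕ => Real.exp (-(n : ℝ) / 2)) (⌊F w⌋₊) := by
    refine Finset.sum_le_sum fun w _ => Real.exp_le_exp.2 ?_
    have := Nat.floor_le (h0 w)
    linarith
  refine h1.trans ?_
  rw [Finset.sum_comp (fun n : ℕ => Real.exp (-(n : ℝ) / 2)) (fun w => ⌊F w⌋₊)]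
  refine le_trans (Finset.sum_le_sum (g := fun n : ℕ => C * (2 + (n : ℝ)) ^ 2 *
    Real.exp (-(n : ℝ) / 2)) ?_) (hs.sum_le_tsum _ fun n _ => by positivity)
  intro n _
  rw [nsmul_eq_mul]
  refine mul_le_mul_of_nonneg_right ?_ (Real.exp_pos _).le
  obtain ⟨hfin, hcard⟩ := hF (n + 1) (by positivity)
  have h2 : (u.filter fun w => ⌊F w⌋₊ = n).card ≤ {w | F w ≤ (n : ℝ) + 1}.ncard := by
    rw [← Set.ncard_coe_finset]
    refine Set.ncard_le_ncard ?_ hfin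
    intro w hw
    have h3 : ⌊F w⌋₊ = n := by
      have := Finset.mem_coe.1 hw
      exact (Finset.mem_filter.1 this).2
    have h4 := Nat.lt_floor_add_one (F w)
    rw [h3] at h4
    exact h4.le
  calc ((u.filter fun w => ⌊F w⌋₊ = n).card : ℝ) ≤ ({w | F w ≤ (n : ℝ) + 1}.ncard : ℝ) := by
        exact_mod_cast h2
    _ ≤ C * (1 + ((n : ℝ) + 1)) ^ 2 := hcard
    _ = C * (2 + (n : ℝ)) ^ 2 := by ring

theorem SUM (hLB : LB_stmt) : SUM_stmt := by
  intro P hP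
  obtain ⟨c, C, hc, hC, h1, -, h3⟩ := hLB P hP
  refine SUM_gen (fun w => LL (desc w P)) C hC ?_ fun T hT => ⟨(h3 T hT).1, (h3 T hT).2.1⟩
  intro w
  obtain ⟨h4, h5, -⟩ := h1 w
  show 0 ≤ len (desc w P).1 + len (desc w P).2.1
  linarith

end SF
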