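import Pool.Agent.helper33.SF.Spec

/-!
# Project SF, row NUM: numerics
-/

set_option autoImplicit false

open Finset

namespace Pool.Agent.SF

theorem NUM_log3 : Real.log 3 ≤ 1.10904 := by
  have h1 : (5 : ℝ) * Real.log 3 ≤ 8 * Real.log 2 := by
    have e1 : (5 : ℝ) * Real.log 3 = Real.log (3 ^ 5) := by
      rw [Real.log_pow]
      norm_num
    have e2 : (8 : ℝ) * Real.log 2 = Real.log (2 ^ 8) := by
      rw [Real.log_pow]
      norm_num
    rw [e1, e2]
    exact Real.log_le_log (by norm_num) (by norm_num)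
  have h2 := Real.log_two_lt_d9
  linarith

theorem NUM_log5 : (1.6 : ℝ) ≤ Real.log 5 := by
  have h1 : (37 : ℝ) * Real.log 2 ≤ 16 * Real.log 5 := by
    have e1 : (16 : ℝ) * Real.log 5 = Real.log (5 ^ 16) := by
      rw [Real.log_pow]
      norm_num
    have e2 : (37 : ℝ) * Real.log 2 = Real.log (2 ^ 37) := by
      rw [Real.log_pow]
      norm_num
    rw [e1, e2]
    exact Real.log_le_log (by norm_num) (by norm_num)
  have h2 := Real.log_two_gt_d9
  linarith

theorem NUM : NUM_stmt := by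
  intro h E K hE hK h4
  have hE' : (5 : ℝ) ≤ (E : ℝ) := by exact_mod_cast hE
  have hE0 : (0 : ℝ) < (E : ℝ) := by linarith
  set s : ℝ := √(E : ℝ) with hs
  set l : ℝ := Real.log (E : ℝ) with hl
  have hs1 : (2.236 : ℝ) ≤ s := by
    rw [hs]
    apply Real.le_sqrt_of_sq_le
    norm_num
    linarith
  have hs0 : 0 < s := by linarith
  have hl1 : (1.6 : ℝ) ≤ l := NUM_log5.trans (Real.log_le_log (by norm_num) hE')
  have hls : Real.log s = l / 2 := by
    rw [hs, Real.log_sqrt hE0.le]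
  have hlog2s : Real.log (2 * s) = Real.log 2 + l / 2 := by
    rw [Real.log_mul (by norm_num) hs0.ne', hls]
  have b1 : Real.log (2 * s + 2) ≤ 1.1932 * l := by
    have c1 : Real.log (2 * s + 2) ≤ Real.log (3 * s) := Real.log_le_log (by linarith) (by linarith)
    have c2 : Real.log (3 * s) = Real.log 3 + l / 2 := by
      rw [Real.log_mul (by norm_num) hs0.ne', hls]
    have c3 := NUM_log3
    linarith
  have b2 : 1 + Real.log (2 * s) ≤ 1.5583 * l := by
    rw [hlog2s]
    have c3 := Real.log_two_lt_d9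
    linarith
  have hsl : (3.5776 : ℝ) ≤ s * l := by nlinarith
  have b3 : (K : ℝ) + 1 ≤ 12.746 * (s * l) := by
    have c1 : 4 * (2 * s) * (1 + Real.log (2 * s)) ≤ 4 * (2 * s) * (1.5583 * l) :=
      mul_le_mul_of_nonneg_left b2 (by positivity)
    nlinarith
  have b4 : (h : ℝ) * (2 * Real.log 2) ≤ ((K : ℝ) + 1) * Real.log (2 * s + 2) := by
    have c1 := Real.log_le_log (by positivity : (0 : ℝ) < (4 : ℝ) ^ h) h4
    rw [Real.log_pow, Real.log_pow] at c1
    have c2 : Real.log (4 : ℝ) = 2 * Real.log 2 := by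
      rw [show (4 : ℝ) = 2 ^ 2 by norm_num, Real.log_pow]
      norm_num
    rw [c2] at c1
    push_cast at c1
    exact c1
  have b5 : ((K : ℝ) + 1) * Real.log (2 * s + 2) ≤ 12.746 * (s * l) * (1.1932 * l) := by
    have c0 : 0 ≤ Real.log (2 * s + 2) := Real.log_nonneg (by linarith)
    exact mul_le_mul b3 b1 c0 (by positivity)
  have hh : (0 : ℝ) ≤ (h : ℝ) := Nat.cast_nonneg h
  have b6 : (h : ℝ) * 1.3862943 ≤ (h : ℝ) * (2 * Real.log 2) :=
    mul_le_mul_of_nonneg_left (by linarith [Real.log_two_gt_d9]) hh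
  have hX : 0 ≤ s * l ^ 2 := by positivity
  have b7 : 12.746 * (s * l) * (1.1932 * l) = 15.2085272 * (s * l ^ 2) := by ring
  rw [b7] at b5
  nlinarith

end Pool.Agent.SF
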